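import Pool.Agent.H22.Conic

set_option autoImplicit false
open MeasureTheory ProbabilityTheory Set Real Matrix Pool.Agent.H22.Conic
open scoped NNReal ENNReal

namespace Pool.Agent.Results.MP_722786_an.Smoothed
noncomputable section

/-- index set of the entries of the data (A, b, c) -/
abbrev Idx (m n : ℕ) := (Fin m × Fin n) ⊕ Fin m ⊕ Fin n

variable {m n : ℕ}

def mA (d : Idx m n → ℝ) : Matrix (Fin m) (Fin n) ℝ := of fun i j => d (.inl (i, j))
def vb (d : Idx m n → ℝ) (i : Fin m) : ℝ := d (.inr (.inl i))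
def vc (d : Idx m n → ℝ) (j : Fin n) : ℝ := d (.inr (.inr j))

/-- Frobenius norm of all entries -/
def fro (d : Idx m n → ℝ) : ℝ := √(∑ k, d k ^ 2)

def dual {k : ℕ} (C : PointedCone ℝ (Fin k → ℝ)) : Set (Fin k → ℝ) := {u | ∀ v ∈ C, 0 ≤ u ⬝ᵥ v}

variable (C₁ : PointedCone ℝ (Fin m → ℝ)) (C₂ : PointedCone ℝ (Fin n → ℝ))

def FeasP (d : Idx m n → ℝ) : Prop := ∃ x ∈ C₂, mA d *ᵥ x - vb d ∈ C₁

def FeasD (d : Idx m n → ℝ) : Prop := ∃ y ∈ dual C₁, vc d - (mA d)ᵀ *ᵥ y ∈ dual C₂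

/-- distance to ill-posedness -/
def rho (d : Idx m n → ℝ) : ℝ≥0∞ :=
  ⨆ (δ : ℝ≥0) (_ : ∀ u, fro u ≤ δ →
    (FeasP C₁ C₂ (d + u) ↔ FeasP C₁ C₂ d) ∧ (FeasD C₁ C₂ (d + u) ↔ FeasD C₁ C₂ d)), (δ : ℝ≥0∞)

/-- condition number -/
def cond (d : Idx m n → ℝ) : ℝ≥0∞ :=
  if rho C₁ C₂ d = 0 then ⊤ else .ofReal (fro d) / rho C₁ C₂ d

lemma hom {k l : ℕ} {ι : Type} (a : Fin k → Option (Fin l) → ι) (s : ℝ) (hs : s * s = 1)
    {Q : Set (Fin l → ℝ)} {C : Set (Fin k → ℝ)} (hQ : ∀ q ∈ Q, ∀ t : ℝ, 0 < t → t • q ∈ Q)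
    (hC : ∀ q ∈ C, ∀ t : ℝ, 0 < t → t • q ∈ C) (x : ι → ℝ) :
    Feas a {q | (fun j => s * q (some j)) ∈ Q ∧ 0 < -s * q none} C x ↔
      ∃ q ∈ Q, s • ((of fun i j => x (a i (some j))) *ᵥ q - fun i => x (a i none)) ∈ C := by
  constructor
  · rintro ⟨q, ⟨h1, h2⟩, h3⟩
    refine ⟨_, hQ _ h1 _ (inv_pos.2 h2), ?_⟩
    convert hC _ h3 _ (inv_pos.2 h2) using 1
    ext i
    have h4 (j) : s * (x (a i (some j)) * ((-s * q none)⁻¹ * (s * q (some j)))) =
      (-s * q none)⁻¹ * (x (a i (some j)) * q (some j)) := by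
      linear_combination (-s * q none)⁻¹ * x (a i (some j)) * q (some j) * hs
    simp only [T, mulVec, dotProduct, Fintype.sum_option, of_apply, Pi.smul_apply, Pi.sub_apply,
      smul_eq_mul, mul_sub, mul_add, Finset.mul_sum, h4]
    linear_combination s * x (a i none) * mul_inv_cancel₀ h2.ne' +
      (-s * q none)⁻¹ * x (a i none) * q none * hs
  · rintro ⟨q, h1, h2⟩
    refine ⟨fun j => j.elim (-s) fun j => s * q j, ⟨by simpa [← mul_assoc, hs], by simp [hs]⟩, ?_⟩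
    convert h2 using 1
    ext i
    simp [T, mulVec, dotProduct, mul_sub, Finset.mul_sum, mul_left_comm]; ring

lemma flip' {k l : ℕ} (hk : 1 ≤ k) {ι : Type} [Fintype ι] [DecidableEq ι]
    {a : Fin k → Option (Fin l) → ι} (ha : ∀ i j i' j', a i j = a i' j' → i = i' ∧ j = j')
    (s : ℝ) (hs : s * s = 1) {Q : Set (Fin l → ℝ)} {C : Set (Fin k → ℝ)} (hQ : Convex ℝ Q)
    (hC : Convex ℝ C) (h0 : 0 ∈ C) (hQ' : ∀ q ∈ Q, ∀ t : ℝ, 0 < t → t • q ∈ Q)
    (hC' : ∀ q ∈ C, ∀ t : ℝ, 0 < t → t • q ∈ C) {F : (ι → ℝ) → Prop} (hF : ∀ x, F x ↔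
      ∃ q ∈ Q, s • ((of fun i j => x (a i (some j))) *ᵥ q - fun i => x (a i none)) ∈ C)
    (d : ι → ℝ) {σ : ℝ≥0} (hσ : 0 < σ) {N ε : ℝ} (hI : k ≤ N) (hJ : l + 1 ≤ N) (hε : 0 < ε) :
    μ d σ {x | ∃ u, ‖u‖ ≤ ε ∧ ¬ (F (x + u) ↔ F x)} ≤ .ofReal (16 * N ^ 4 * ε / σ) := by
  have : Nonempty (Fin k) := ⟨⟨0, hk⟩⟩
  simp only [hF, ← hom a s hs hQ' hC']
  refine Pool.Agent.H22.Conic.flip ha ?_ hC h0 (fun q hq t ht => ?_) hC' (w := Pi.single none (-s)) ?_
    (fun q hq => by simpa using hq.2) d hσ (by simpa) (by simpa) hε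
  · exact (hQ.is_linear_preimage (f := fun (q : Option (Fin l) → ℝ) j => s * q (some j))
      ⟨fun _ _ => by ext; simp [mul_add], fun _ _ => by ext; simp [mul_left_comm]⟩).inter
      (convex_halfSpace_gt (f := fun q : Option (Fin l) → ℝ => -s * q none)
        ⟨fun _ _ => mul_add .., fun _ _ => by simp [mul_left_comm]⟩ 0)
  · exact ⟨by simpa [mul_left_comm s t, Pi.smul_def] using hQ' _ hq.1 t ht,
      by simpa [mul_left_comm s t] using mul_pos ht hq.2⟩
  · rw [Pi.norm_single, norm_neg, norm_eq_abs, ← sq_le_one_iff_abs_le_one, sq, hs]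

lemma dual_conv {k : ℕ} (C : PointedCone ℝ (Fin k → ℝ)) : Convex ℝ (dual C) :=
  fun x hx y hy a b ha hb _ v hv => by
    have := hx v hv; have := hy v hv
    simp only [add_dotProduct, smul_dotProduct, smul_eq_mul]; positivity

lemma dual_smul {k : ℕ} (C : PointedCone ℝ (Fin k → ℝ)) :
    ∀ q ∈ dual C, ∀ t : ℝ, 0 < t → t • q ∈ dual C := fun q hq t ht v hv => by
  have := hq v hv
  simp only [smul_dotProduct, smul_eq_mul]; positivity

lemma tail (hm : 1 ≤ m) (hn : 1 ≤ n) (d : Idx m n → ℝ) {σ : ℝ≥0} (hσ : 0 < σ) {ε : ℝ≥0}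
    (hε : 0 < ε) : μ d σ {x | rho C₁ C₂ x < ε} ≤ .ofReal (32 * (2 * m * n) ^ 4 * ε / σ) := by
  have hm' : (1 : ℝ) ≤ m := by exact_mod_cast hm
  have hn' : (1 : ℝ) ≤ n := by exact_mod_cast hn
  have h1 := flip' (F := FeasP C₁ C₂) (N := 2 * m * n) (ε := ε) hm
    (a := fun i j => j.elim (.inr (.inl i)) fun j => .inl (i, j))
    (by rintro i (_ | j) i' (_ | j') <;> simp) 1 (one_mul 1) C₂.convex C₁.convex C₁.zero_mem
    (fun q hq t ht => C₂.smul_mem ht.le hq) (fun q hq t ht => C₁.smul_mem ht.le hq)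
    (fun x => by simp only [one_smul]; rfl) d hσ (by nlinarith) (by nlinarith) hε
  have h2 := flip' (F := FeasD C₁ C₂) (N := 2 * m * n) (ε := ε) hn
    (a := fun j i => i.elim (.inr (.inr j)) fun i => .inl (i, j))
    (by rintro i (_ | j) i' (_ | j') <;> simp +contextual) (-1) (by simp) (dual_conv C₁)
    (dual_conv C₂) (fun _ _ => by simp) (dual_smul C₁) (dual_smul C₂)
    (fun x => by simp only [neg_smul, one_smul, neg_sub]; rfl) d hσ (by nlinarith) (by nlinarith) hε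
  refine (measure_mono fun x hx => ?_).trans ((measure_union_le _ _).trans
    ((add_le_add h1 h2).trans_eq ?_))
  · by_contra h
    simp only [mem_union, mem_ofPred_eq, not_or, not_exists, not_and, not_not] at h
    refine (show rho C₁ C₂ x < ε from hx).not_ge ?_
    unfold rho
    refine le_iSup₂_of_le ε (fun u hu => ?_) le_rfl
    have : ‖u‖ ≤ ε := (pi_norm_le_iff_of_nonneg ε.2).2 fun k => le_trans (abs_le_sqrt
      (Finset.single_le_sum (f := fun k => u k ^ 2) (fun _ _ => sq_nonneg _) (Finset.mem_univ k))) hu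
    exact ⟨h.1 u this, h.2 u this⟩
  · rw [← ENNReal.ofReal_add (by positivity) (by positivity)]; congr 1; ring

lemma sq_int (d : Idx m n → ℝ) (σ : ℝ≥0) : Integrable (fun x => fro x ^ 2) (μ d σ) ∧
    ∫ x, fro x ^ 2 ∂μ d σ = fro d ^ 2 + Fintype.card (Idx m n) * σ ^ 2 := by
  have h0 (x : Idx m n → ℝ) : fro x ^ 2 = ∑ k, x k ^ 2 := sq_sqrt (by positivity)
  have h1 (k) := measurePreserving_eval (fun k => gaussianReal (d k) (σ ^ 2)) k
  have h2 (k) : Integrable (fun x : Idx m n → ℝ => x k ^ 2) (μ d σ) :=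
    (h1 k).integrable_comp_of_integrable (memLp_id_gaussianReal 2).integrable_sq
  simp only [h0]
  refine ⟨integrable_finsetSum _ fun k _ => h2 k, ?_⟩
  rw [integral_finsetSum _ fun k _ => h2 k, ← nsmul_eq_mul, ← Finset.card_univ, ← Finset.sum_const,
    ← Finset.sum_add_distrib]
  refine Finset.sum_congr rfl fun k _ => ?_
  have := variance_eq_sub (memLp_id_gaussianReal (μ := d k) (v := σ ^ 2) 2)
  rw [variance_id_gaussianReal] at this
  simp only [Pi.pow_apply, id, integral_id_gaussianReal, NNReal.coe_pow] at this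
  rw [this, add_sub_cancel, ← (h1 k).map_eq, integral_map (h1 k).aemeasurable (by fun_prop)]

theorem result : ∃ K : ℝ, ∀ m n : ℕ, 1 ≤ m → 1 ≤ n →
    ∀ (C₁ : PointedCone ℝ (Fin m → ℝ)) (C₂ : PointedCone ℝ (Fin n → ℝ)) (d : Idx m n → ℝ),
      fro d ≤ 1 → ∀ σ : ℝ≥0, 0 < σ → σ ≤ 1 →
        ∃ g : (Idx m n → ℝ) → ℝ≥0∞, Measurable g ∧
          (∀ x, ENNReal.log (cond C₁ C₂ x) ≤ g x) ∧
          ∫⁻ x, g x ∂(Measure.pi fun k => gaussianReal (d k) (σ ^ 2)) ≤
            .ofReal (K * (1 + log (m * n / σ))) := by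
  refine ⟨1100, fun m n hm hn C₁ C₂ d hd σ hσ hσ' => ?_⟩
  have hm' : (1 : ℝ) ≤ m := by exact_mod_cast hm
  have hn' : (1 : ℝ) ≤ n := by exact_mod_cast hn
  have h0 : (1 : ℝ) ≤ m * n := by nlinarith
  have hσ1 : (σ : ℝ) ≤ 1 := hσ'
  have hσ0 : (0 : ℝ) < σ := hσ
  let ε (k : ℕ) : ℝ≥0 := σ / (32 * (2 * m * n) ^ 4 * 2 ^ k)
  have hε (k) : 0 < ε k := by positivity
  let B (k : ℕ) := toMeasurable (μ d σ) {x | rho C₁ C₂ x < ε k}
  have hB (k) : Measurable ((B k).indicator (1 : (Idx m n → ℝ) → ℝ≥0∞)) :=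
    measurable_one.indicator (measurableSet_toMeasurable _ _)
  let L : ℝ := log (m * n / σ)
  have hL : 0 ≤ L := log_nonneg ((le_div_iff₀ hσ0).2 (by linarith))
  have h1 : Continuous (fro (m := m) (n := n)) := by unfold fro; fun_prop
  refine ⟨fun x => .ofReal (512 + 5 * L + (1 + fro x ^ 2) / (m * n)) + ∑' k, (B k).indicator 1 x,
    (Measurable.ennreal_ofReal (f := fun x => 512 + 5 * L + (1 + fro x ^ 2) / (m * n))
      (by fun_prop)).add (.tsum hB), fun x => ?_, ?_⟩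
  · by_cases h : ∀ k, x ∈ B k
    · simp [h]
    push Not at h
    obtain ⟨k, h2, h3⟩ : ∃ k, x ∉ B k ∧ ∀ j < k, x ∈ B j := by
      classical exact ⟨_, Nat.find_spec h, fun j hj => not_not.1 (Nat.find_min h hj)⟩
    have h4 : (ε k : ℝ≥0∞) ≤ rho C₁ C₂ x := not_lt.1 fun h => h2 (subset_toMeasurable _ _ h)
    have h5 : (k : ℝ≥0∞) ≤ ∑' k, (B k).indicator 1 x :=
      le_trans (by simp +contextual [Finset.sum_congr rfl fun j hj =>
        indicator_of_mem (h3 j (Finset.mem_range.1 hj)) (1 : (Idx m n → ℝ) → ℝ≥0∞)])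
        (ENNReal.sum_le_tsum (Finset.range k))
    have h6 : cond C₁ C₂ x ≤ .ofReal (exp (512 + 5 * L + (1 + fro x ^ 2) / (m * n) + k)) := by
      rw [cond, if_neg ((ENNReal.coe_pos.2 (hε k)).trans_le h4).ne']
      refine (ENNReal.div_le_div_left h4 _).trans ?_
      rw [← ENNReal.ofReal_coe_nnreal, ← ENNReal.ofReal_div_of_pos (NNReal.coe_pos.2 (hε k))]
      refine ENNReal.ofReal_le_ofReal ?_
      have a1 : exp (5 * L) = (m * n / σ) ^ 5 := by
        rw [← exp_log (x := (m * n / σ) ^ 5) (by positivity), log_pow]; norm_num [L]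
      have a2 : (2 : ℝ) ^ k ≤ exp k := by
        rw [← exp_one_pow]; gcongr; linarith [add_one_le_exp 1]
      have a3 : fro x / (m * n) ≤ exp ((1 + fro x ^ 2) / (m * n)) :=
        le_trans (by gcongr; nlinarith) ((le_add_of_nonneg_right zero_le_one).trans (add_one_le_exp _))
      have a4 : 0 ≤ fro x := sqrt_nonneg _
      calc _ = 512 * (m * n / σ) ^ 5 * (fro x / (m * n)) * 2 ^ k * σ ^ 4 := by
            simp only [ε]; push_cast; field_simp; ring
        _ ≤ exp 512 * (m * n / σ) ^ 5 * exp ((1 + fro x ^ 2) / (m * n)) * exp k * 1 ^ 4 := by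
            gcongr; linarith [add_one_le_exp 512]
        _ = _ := by simp only [exp_add, a1]; ring
    refine (ENNReal.log_le_log h6).trans ?_
    rw [ENNReal.log_ofReal_of_pos (exp_pos _), log_exp]
    refine le_trans ?_ (EReal.coe_ennreal_le_coe_ennreal_iff.2 (add_le_add_right h5 _))
    rw [← ENNReal.ofReal_natCast, ← ENNReal.ofReal_add (by positivity) (by positivity),
      EReal.coe_ennreal_ofReal]
    exact_mod_cast le_max_left _ _
  · obtain ⟨h2, h3⟩ := sq_int d σ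
    have h4 : Integrable (fun x => (1 + fro x ^ 2) / (m * n)) (μ d σ) :=
      ((integrable_const (1 : ℝ)).add h2).div_const (m * n)
    rw [lintegral_add_right _ (.tsum hB), lintegral_tsum fun k => (hB k).aemeasurable,
      ← ofReal_integral_eq_lintegral_ofReal (f := fun x => 512 + 5 * L + (1 + fro x ^ 2) / (m * n))
        ((integrable_const _).add h4) (ae_of_all _ fun x => by simp only [Pi.zero_apply]; positivity),
      integral_add (integrable_const _) h4, integral_div, integral_add (integrable_const _) h2, h3]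
    have h5 (k) : ∫⁻ x, (B k).indicator 1 x ∂μ d σ ≤ 2⁻¹ ^ k := by
      rw [lintegral_indicator_one (measurableSet_toMeasurable _ _), measure_toMeasurable]
      refine (tail C₁ C₂ hm hn d hσ (hε k)).trans_eq ?_
      rw [← ENNReal.ofReal_ofNat 2, ← ENNReal.ofReal_inv_of_pos two_pos,
        ← ENNReal.ofReal_pow (by positivity)]
      congr 1; simp only [ε]; push_cast; field_simp; simp
    refine (add_le_add_right (ENNReal.tsum_le_tsum h5) _).trans ?_
    rw [ENNReal.tsum_geometric_two, ← ENNReal.ofReal_ofNat 2,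
      ← ENNReal.ofReal_add (by simp; positivity) (by positivity)]
    refine ENNReal.ofReal_le_ofReal ?_
    have a4 : 0 ≤ fro d := sqrt_nonneg _
    have : (1 + (fro d ^ 2 + Fintype.card (Idx m n) * σ ^ 2)) / (m * n) ≤ 5 := by
      rw [div_le_iff₀ (by positivity)]
      have : (σ : ℝ) ^ 2 ≤ 1 := by nlinarith
      have := mul_le_of_le_one_right (Nat.cast_nonneg (Fintype.card (Idx m n))) this
      simp only [Fintype.card_sum, Fintype.card_prod, Fintype.card_fin] at this ⊢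
      push_cast at this ⊢
      nlinarith
    simp only [integral_const, probReal_univ, one_smul]
    linarith

end
end Pool.Agent.Results.MP_722786_an.Smoothed
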